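import Mathlib
import Pool.Agent.Helper73.DM.PosFive

/-!
Problem MP_0462fc_lc: monotonicity of the growth function is decidable for D0L systems with at
most nine letters.
-/

set_option autoImplicit false

namespace Pool.Agent.Results.MP_0462fc_lc.NineLetters

/-- The D0L system `p = (words h(0), h(1), ...; axiom)` (letters are natural numbers, a letter
without a word is erased) has the words `hⁿ(ω)`. The set of the D0L systems in which at most nine
letters occur and whose growth function is monotonic is computable. -/
theorem result :
    ComputablePred (fun p : List (List ℕ) × List ℕ =>
      (p.1.flatten ++ p.2).toFinset.card ≤ 9 ∧ ∀ n : ℕ,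
        ((fun w : List ℕ => w.flatMap (fun a => p.1.getD a []))^[n] p.2).length ≤
          ((fun w : List ℕ => w.flatMap (fun a => p.1.getD a []))^[n + 1] p.2).length) := by
  exact Pool.Agent.Helper73.DM.nine_letters

end Pool.Agent.Results.MP_0462fc_lc.NineLetters
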